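import Pool.Agent.NCF.Chain

/-!
# Numerically trivial classes vanish: quotients with cohomology of finite global dimension

Let `A` be a smooth proper dg algebra with a finite chain of dg ideals
`0 = L 0 ⊆ L 1 ⊆ ... ⊆ L n = A` that have finite-dimensional cohomology, such that for each `i`
either `L (i + 1) / L i` is acyclic or `L (i + 1)` is mapped into `L i` by the kernel of a
surjection `A → B` onto a proper dg algebra `B` whose cohomology algebra has finite global
dimension (`FinGl`). Then `K_0(A) ⊗ ℚ` is finite-dimensional and has no nonzero numerically
trivial class. The case `n = 1`, `B = A` concerns the smooth proper dg algebras whose cohomology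
algebra has finite global dimension. Neither `A` nor the `B` need be formal.

The proof for `B`: the finite resolution of the cohomology `H(M)` of a perfect module `M` is
realised step by step by sums of shifts of the `e_i B`, so the classes `[e_i B]` span; a
numerically trivial combination `∑ a_i [e_i B]` satisfies `∑ a_i eu(X e_i) = 0` for all
finite-dimensional graded `H(B)`-modules `X`, where `eu` is the Euler characteristic, since `X`
has a finite resolution by cohomology modules of perfect modules; the modules `S_j` show that all
`a_j` vanish. For `A`: the identity of `K_0(A) ⊗ ℚ` is a sum of maps that factor through the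
`K_0(B) ⊗ ℚ`.
-/

open Pool.Agent.NCD Pool.Agent.NCN Pool.Agent.NCF

theorem Pool.Agent.Results.MP_28af06_ag.FiniteGlobalDimension.result :
    ∀ (k : Type) [Field k] (A : DGA k), Smooth A → Proper A →
      ∀ (n : ℕ) (L : ℕ → Sub A), IsChainL A n L →
        (∀ i < n, StepF A (L i) (L (i + 1))) → NoNum A := by
  intro k _ A hs hp n L hL hl
  exact noNum_of_chain hs hp hL hl
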