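import Pool.Agent.NCN.Chain

/-!
# The noncommutative standard conjecture of type D and chains of dg ideals

Let `A` be a smooth proper dg algebra with a finite chain of dg ideals
`0 = L 0 ⊆ L 1 ⊆ ... ⊆ L n = A` that have finite-dimensional cohomology. If each `L (i + 1)` is
mapped into `L i` from the left by the kernel of a quotient map `A → B i` (or `L (i + 1) / L i` is
acyclic) and numerically trivial classes over the `B i` are homologically trivial, then the same
holds for `A`; and conversely with kernels acting from the right. The `B i` need not be smooth
or proper; numerical triviality over `B i` refers to all modules with finite-dimensional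
cohomology, and this is the usual notion over smooth proper dg algebras.

The proof: since `A` is smooth, bar resolutions of modules with finite-dimensional cohomology are
perfect, so `[M] = ∑ [M ⊗ (L (i + 1) / L i)]` in `K_0`, and the functors
`M ↦ M ⊗ (L (i + 1) / L i)` factor through the perfect modules over `B i`.
-/

open Pool.Agent.NCD Pool.Agent.NCN

theorem Pool.Agent.Results.MP_28af06_ag.IdealChains.result :
    ∀ (k : Type) [Field k] (A : DGA k), Smooth A → Proper A →
      NumEq A ∧ ∀ (H : ChernTheory k) (n : ℕ) (L : ℕ → Sub A), IsChainL A n L →
        ((∀ i < n, StepL H A (L i) (L (i + 1))) → NumHom H A) ∧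
        ((∀ i < n, StepR H A (L i) (L (i + 1))) → HomNum H A) := by
  intro k _ A hs hp
  refine ⟨vnumF_eq hs hp, fun H n L hL => ⟨fun hl => ?_, fun hr => ?_⟩⟩
  · exact num_le_hom hs hp H (fun i => (hL.2 i).1) (fun i => (hL.2 i).2) hL.1.1 hL.1.2.1
      hL.1.2.2 hl
  · exact hom_le_num hp H (fun i => (hL.2 i).1) (fun i => (hL.2 i).2) hL.1.1 hL.1.2.1
      hL.1.2.2 hr
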