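import Pool.Agent.NCB.Shape

/-!
# The noncommutative standard conjecture of type D and prescribed cohomology

For all integers `N`, `L` and every smooth proper dg algebra `A` there is a smooth proper dg
algebra `T` such that Conjecture D for `T` implies Conjecture D for `A`, for every Chern theory,
and whose perfect modules are generated by two exceptional objects `P`, `S` with
`H^*(Hom(P, S)) = k` in degree `0`, all compositions `P → S → P`, `S → P → S` zero in cohomology,
and `dim H^i(Hom(S, P)) = [i = 1] + [i = N + 1] + [i ≤ 2 - N] + [i ≤ 4 - N]` for all `i ≥ L`. So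
the graded algebra `H^*(End(P ⊕ S))` does not depend on `A` in degrees `≥ L`. For `N = 2` the
dimensions are `0` for `i > 3`, `1` for `i = 3, 2` and `2` for `L ≤ i ≤ 1`; for `N > 4 - L` they
are `1` for `i = 1, N + 1` and `0` for all other `i ≥ L`, so that `H^*(End(P ⊕ S))` has dimension
`5` in degrees `≥ L`. After a shift of `P` by `m` this is `Shape N m L T`.

Proof: if `T`, `P`, `S` are as above, put `M = P ⊕ S[-i]` and `T' = [[k, M], [0, T]]`,
`P' = e₁ T'`, `S' = cone (M → P')`. Then `dim H^n(Hom(S', P')) = dim H^(n + i - 1)(Hom(S, P))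
+ [n = 1] + [n = i + 1]`. Take `i = 2` many times and `i = N` in the last step.
-/

open Pool.Agent.NCD Pool.Agent.NCX Pool.Agent.NCB

theorem Pool.Agent.Results.MP_28af06_ag.PrescribedDegrees.result :
    (∀ (k : Type) [Field k] (A : DGA k), Smooth A → Proper A → ∀ N L : ℤ,
      ∃ T : DGA k, Smooth T ∧ Proper T ∧ (∀ m : ℤ, Shape N m L T) ∧
        ∀ H : ChernTheory k, ConjD H T → ConjD H A) ∧
    ∀ (k : Type) [Field k] [CharZero k] (N m L : ℤ),
      (∀ A : DGA k, Smooth A → Proper A → ConjD (HPTheory k) A) ↔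
        ∀ T : DGA k, Smooth T → Proper T → Shape N m L T → ConjD (HPTheory k) T := by
  have main : ∀ (k : Type) [Field k] (A : DGA k), Smooth A → Proper A → ∀ N L : ℤ,
      ∃ T : DGA k, Smooth T ∧ Proper T ∧ (∀ m : ℤ, Shape N m L T) ∧
        ∀ H : ChernTheory k, ConjD H T → ConjD H A := by
    intro k _ A hs hp N L
    obtain ⟨T, P, S, hs', hp', hE, hh, hD⟩ := mainD hs hp N L
    exact ⟨T, hs', hp', fun m => shape_of hE hh m, hD⟩
  refine ⟨main, fun k _ _ N m L => ⟨fun h T hs hp _ => h T hs hp, fun h A hs hp => ?_⟩⟩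
  obtain ⟨T, h1, h2, h3, h4⟩ := main k A hs hp N L
  exact h4 _ (h T h1 h2 (h3 m))
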