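import Pool.Agent.NCB.Class

/-!
# The noncommutative standard conjecture of type D and Serre functors

Let `N` be odd and `L` any integer. Every class `x` in `K_0` of every smooth proper dg algebra
`A` is the class `[P] - [S]` for an exceptional object `P` of a smooth proper dg algebra `T` and
its image `S` under the Serre functor of `T`: `x` is numerically (homologically) trivial if and
only if `[P] - [S]` is; and `T`, `P`, `S` can be chosen such that `H^i(Hom(S, P))` has dimension
`[i = 1] + [i = N + 1] + [i ≤ 2 - N, i odd] + [i ≤ 5 - N, i even]` for all `i ≥ L`, whatever `A`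
and `x` are. So Conjecture D holds for all smooth proper dg algebras if and only if exceptional
objects that are numerically fixed by the Serre functor are homologically fixed, and conversely,
under this condition. For `N = 3` the dimensions are `0` for `i > 4` and `i = 3`, and `1` for
`i = 4` and `L ≤ i ≤ 2`; for `N > 5 - L` they are `1` for `i = 1, N + 1` and `0` for all other
`i ≥ L`.

`T = [[k, M], [0, A]]` for a perfect module `M` of class `x` that generates the perfect modules
over `A`, `P = e₁ T` and `S = cone (M → P)`. Then `(T, P, S)` is replaced, again and again, by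
`T' = [[k, P ⊕ S[-i]], [0, T]]` with its `P'` and `S'`, for `i = 3`, and for `i = N` in the last
step: `dim H^n(Hom(S', P')) = dim H^(n + i - 1)(Hom(S, P)) + [n = 1] + [n = i + 1]`, and
`[P'] - [S']` comes from `[P] - [S]` as `i` is odd.
-/

open Pool.Agent.NCD Pool.Agent.NCX Pool.Agent.NCB

theorem Pool.Agent.Results.MP_28af06_ag.SerreFixed.result :
    ∀ (k : Type) [Field k] (N L : ℤ), N % 2 = 1 →
      (∀ A : DGA k, Smooth A → Proper A → ∀ x : Perf A →₀ ℤ,
        ∃ (T : DGA k) (P S : Perf T), Smooth T ∧ Proper T ∧ ExcSerre P S ∧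
          DimsP N L S.M P.M ∧
          (Kcl (relK A) x ∈ Vnum A ↔ ∀ Q : DGMod T, PerfK Q → chi P.M Q = chi S.M Q) ∧
          ∀ H : ChernTheory k, Kcl (relK A) x ∈ Vhom H A ↔ dcl P S ∈ Vhom H T) ∧
      ∀ H : ChernTheory k, (∀ A : DGA k, Smooth A → Proper A → ConjD H A) ↔
        ∀ T : DGA k, Smooth T → Proper T → ∀ P S : Perf T, ExcSerre P S → DimsP N L S.M P.M →
          ((∀ Q : DGMod T, PerfK Q → chi P.M Q = chi S.M Q) ↔ dcl P S ∈ Vhom H T) := by
  intro k _ N L hN'
  have hN : Odd N := Int.odd_iff.2 hN'
  refine ⟨fun A hs hp x => mainC hs hp x N L hN, fun H => ⟨fun h T hs hp P S _ _ => ?_,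
    fun h A hs hp => ?_⟩⟩
  · rw [← vnum_dcl hp]
    have := h T hs hp
    unfold ConjD at this
    rw [this]
  · have hx : ∀ x : Perf A →₀ ℤ, Kcl (relK A) x ∈ Vhom H A ↔ Kcl (relK A) x ∈ Vnum A := by
      intro x
      obtain ⟨T, P, S, hs', hp', hE, hV, h2, h3⟩ := mainC hs hp x N L hN
      rw [h3 H, h2]
      exact (h T hs' hp' P S hE hV).symm
    unfold ConjD
    apply le_antisymm
    · unfold Vhom Kker
      rw [Submodule.span_le]
      rintro v ⟨x, hx0, rfl⟩
      exact (hx x).1 (Submodule.subset_span ⟨x, hx0, rfl⟩)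
    · unfold Vnum Kker
      rw [Submodule.span_le]
      rintro v ⟨x, hx0, rfl⟩
      exact (hx x).2 (Submodule.subset_span ⟨x, hx0, rfl⟩)
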